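import Pool.Agent.Helper88.TR.ToSL
import Pool.Agent.Helper2.UN.CDefs

/-!
Simply laced root pairings give simply laced systems (unitary case).
-/

open Module

namespace UN

open Pool.Agent.Helper54.MT RootPairing TR

section rp2

variable {ι K M N : Type*} [Field K] [CharZero K] [AddCommGroup M] [Module K M]
  [AddCommGroup N] [Module K N] {P : RootPairing ι K M N} [Fintype ι] [P.IsCrystallographic]
  {X : Finset M} {s : M →ₗ[K] K} {c : K}

theorem USit.sub_mem (h : USit P X s c) {x : M} (hx : x ∈ X) {i : ι}
    (h1 : P.coroot' i x = 1) : x - P.root i ∈ X := by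
  rw [← refl_one h1]
  exact h.ws.refl x hx i

theorem USit.sroot (h : USit P X s c) (i : ι) :
    s (P.root i) = 0 ∨ s (P.root i) = 1 ∨ s (P.root i) = -1 := by
  obtain ⟨x, hx, h1⟩ := h.faith i
  have h2 := h.sx x hx
  have h3 := h.sx _ (h.sub_mem hx h1)
  rw [map_sub] at h3
  rcases h2 with h2 | h2 <;> rw [h2] at h3 <;> rcases h3 with h3 | h3
  · left; linear_combination -h3
  · right; left; linear_combination -h3
  · right; right; linear_combination -h3
  · left; linear_combination -h3

theorem USit.ex_one (h : USit P X s c) : ∃ i, s (P.root i) = 1 := by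
  obtain ⟨i, hi⟩ := h.ex
  rcases h.sroot i with h1 | h1 | h1
  · exact absurd h1 hi
  · exact ⟨i, h1⟩
  · exact ⟨P.reflectionPerm i i, by rw [root_neg, map_neg, h1, neg_neg]⟩

theorem USit.span_plus [P.IsIrreducible] (h : USit P X s c) :
    Submodule.span K (P.root '' {i | s (P.root i) = 1}) = ⊤ := by
  obtain ⟨i0, hi0⟩ := h.ex_one
  refine span_top _ ⟨i0, hi0⟩ ?_
  intro j i hi
  have hi' : s (P.root i) = 1 := hi
  rcases h.sroot j with h1 | h1 | h1
  · refine Submodule.subset_span ⟨P.reflectionPerm j i, ?_, P.root_reflectionPerm j i⟩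
    change s _ = 1
    rw [root_reflectionPerm, RootPairing.reflection_apply, map_sub, map_smul, h1, smul_zero,
      sub_zero, hi']
  · rw [RootPairing.reflection_apply]
    exact Submodule.sub_mem _ (Submodule.subset_span ⟨i, hi, rfl⟩)
      (Submodule.smul_mem _ _ (Submodule.subset_span ⟨j, h1, rfl⟩))
  · rw [RootPairing.reflection_apply]
    refine Submodule.sub_mem _ (Submodule.subset_span ⟨i, hi, rfl⟩)
      (Submodule.smul_mem _ _ ?_)
    have h2 : P.root j = -P.root (P.reflectionPerm j j) := by rw [root_neg, neg_neg]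
    rw [h2]
    refine Submodule.neg_mem _ (Submodule.subset_span ⟨_, ?_, rfl⟩)
    change s _ = 1
    rw [root_neg, map_neg, h1, neg_neg]

/-- Simply laced pairings. -/
theorem same_len [P.IsReduced] {i j : ι} (h1 : i ≠ j) (h2 : P.root i ≠ -P.root j)
    (h3 : len P i = len P j) :
    P.pairingIn ℤ i j = -1 ∨ P.pairingIn ℤ i j = 0 ∨ P.pairingIn ℤ i j = 1 := by
  have h4 := pair_len P i j
  have h5 := len_pos P j
  rw [h3] at h4
  have h6 : P.pairingIn ℤ i j = P.pairingIn ℤ j i := by
    exact mul_right_cancel₀ h5.ne' h4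
  have h7 := P.pairingIn_pairingIn_mem_set_of_isCrystal_of_isRed' i j
    (fun hc => h1 (P.root.injective hc)) h2
  simp only [Set.mem_insert_iff, Prod.mk.injEq, Set.mem_singleton_iff] at h7
  omega

/-- Vectors orthogonal to all coroots vanish. -/
theorem eq_zero_of_coroot [P.IsIrreducible] (i0 : ι) {m : M} (h : ∀ j, P.coroot' j m = 0) :
    m = 0 := by
  let U : Submodule K M :=
    { carrier := {x | ∀ j, P.coroot' j x = 0}
      add_mem' := fun {a b} ha hb j => by rw [map_add, ha j, hb j, add_zero]
      zero_mem' := fun j => map_zero _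
      smul_mem' := fun r a ha j => by rw [map_smul, ha j, smul_zero] }
  by_contra hm
  have hU : U = ⊤ := by
    apply IsIrreducible.eq_top_of_invtSubmodule_reflection (P := P)
    · intro j
      rw [Module.End.mem_invtSubmodule]
      intro x hx
      change P.reflection j x ∈ U
      rw [RootPairing.reflection_apply, hx j, zero_smul, sub_zero]
      exact hx
    · intro h0
      have : m ∈ U := h
      rw [h0, Submodule.mem_bot] at this
      exact hm this
  have h1 : P.root i0 ∈ U := by rw [hU]; exact Submodule.mem_top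
  have h2 := h1 i0
  rw [pair_cast, pair_self] at h2
  norm_num at h2

open Classical in
/-- RP2: simply laced root pairings give simply laced systems. -/
theorem USit.toUSL [P.IsReduced] [P.IsIrreducible] (h : USit P X s c)
    (_hspan : P.rootSpan K = ⊤) {l : ℤ} (hl : ∀ i, len P i = l) :
    USL (TR.bf P l) s c (Finset.univ.image P.root) X where
  symm := bf_symm l
  two := by
    intro a ha
    obtain ⟨i, -, rfl⟩ := Finset.mem_image.mp ha
    rw [bf_one (hl i), pair_cast, pair_self]
    norm_num
  neg := by
    intro a ha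
    obtain ⟨i, -, rfl⟩ := Finset.mem_image.mp ha
    exact Finset.mem_image.mpr ⟨P.reflectionPerm i i, Finset.mem_univ _, root_neg i⟩
  pair := by
    intro a ha b hb hab hab'
    obtain ⟨i, -, rfl⟩ := Finset.mem_image.mp ha
    obtain ⟨j, -, rfl⟩ := Finset.mem_image.mp hb
    rw [bf_one (hl j), pair_cast]
    have hij : i ≠ j := by rintro rfl; exact hab rfl
    rcases same_len hij hab' ((hl i).trans (hl j).symm) with h1 | h1 | h1 <;> rw [h1]
    · left; norm_num
    · right; left; norm_num
    · right; right; norm_num
  sub := by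
    intro a ha b hb hab
    obtain ⟨i, -, rfl⟩ := Finset.mem_image.mp ha
    obtain ⟨j, -, rfl⟩ := Finset.mem_image.mp hb
    rw [bf_one (hl j), pair_cast] at hab
    have h1 : P.pairingIn ℤ i j = 1 := by exact_mod_cast hab
    exact Finset.mem_image.mpr ⟨P.reflectionPerm j i, Finset.mem_univ _, refl_perm_one h1⟩
  small := by
    intro x hx a ha
    obtain ⟨i, -, rfl⟩ := Finset.mem_image.mp ha
    rw [bf_one (hl i)]
    exact h.ws.small x hx i
  xsub := by
    intro x hx a ha hxa
    obtain ⟨i, -, rfl⟩ := Finset.mem_image.mp ha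
    rw [bf_one (hl i)] at hxa
    exact h.sub_mem hx hxa
  sx := h.sx
  faith := by
    intro a ha
    obtain ⟨i, -, rfl⟩ := Finset.mem_image.mp ha
    obtain ⟨x, hx, h1⟩ := h.faith i
    exact ⟨x, hx, by rw [bf_one (hl i)]; exact h1⟩
  sep := by
    intro x hx y hy hxy
    obtain ⟨i, h1, h2⟩ := (h.ws.small x hx).separate (h.ws.small y hy) hxy (h.ws.conn x hx y hy)
    exact ⟨P.root i, Finset.mem_image.mpr ⟨i, Finset.mem_univ _, rfl⟩,
      by rw [bf_one (hl i)]; exact h1, by rw [bf_one (hl i)]; exact h2⟩
  ex := by
    obtain ⟨i, hi⟩ := h.ex_one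
    exact ⟨P.root i, Finset.mem_image.mpr ⟨i, Finset.mem_univ _, rfl⟩, hi⟩
  hit := by
    intro m hm
    obtain ⟨i0, -⟩ := h.ex_one
    refine eq_zero_of_coroot (P := P) i0 fun j => ?_
    rw [← bf_one (hl j)]
    refine span_form h.span_plus l (fun i hi => ?_) _
    exact hm _ (Finset.mem_image.mpr ⟨i, Finset.mem_univ _, rfl⟩) hi
  conn := by
    intro D hD hcl
    obtain ⟨a0, ha0, hsa0, haD⟩ := hD
    obtain ⟨i0, -, rfl⟩ := Finset.mem_image.mp ha0
    have hcl' : ∀ i j : ι, s (P.root i) = 1 → s (P.root j) = 1 → P.pairingIn ℤ i j = 1 →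
        P.root i ∈ D → P.root j ∈ D := by
      intro i j h1 h2 h3 h4
      refine hcl _ (Finset.mem_image.mpr ⟨i, Finset.mem_univ _, rfl⟩) _
        (Finset.mem_image.mpr ⟨j, Finset.mem_univ _, rfl⟩) h1 h2 ?_ h4
      rw [bf_one (hl j), pair_cast, h3, Int.cast_one]
    have hsym : ∀ i j : ι, P.pairingIn ℤ i j = P.pairingIn ℤ j i := by
      intro i j
      have h4 := pair_len P i j
      have h5 := len_pos P j
      rw [hl i, hl j] at h4
      rw [hl j] at h5
      exact mul_right_cancel₀ h5.ne' h4
    let S : Set ι := {i | s (P.root i) = 1 ∧ P.root i ∈ D}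
    have hS : Submodule.span K (P.root '' S) = ⊤ := by
      refine span_top S ⟨i0, hsa0, haD⟩ ?_
      rintro j i ⟨hi1, hi2⟩
      have hiS : P.root i ∈ Submodule.span K (P.root '' S) :=
        Submodule.subset_span ⟨i, ⟨hi1, hi2⟩, rfl⟩
      by_cases hij : i = j
      · subst hij
        rw [RootPairing.reflection_apply_self]
        exact Submodule.neg_mem _ hiS
      by_cases hij' : P.root i = -P.root j
      · have h1 : P.reflection j (P.root i) = - P.root i := by
          rw [hij', map_neg, RootPairing.reflection_apply_self]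
        rw [h1]
        exact Submodule.neg_mem _ hiS
      -- the root `k` obtained by reflection
      have hk := P.root_reflectionPerm j i
      set k := P.reflectionPerm j i with hkdef
      rw [← hk]
      have hk' : P.root k = P.root i - (P.pairingIn ℤ i j : K) • P.root j := by
        rw [hk, RootPairing.reflection_apply, pair_cast]
      have hsk : s (P.root k) = 1 - (P.pairingIn ℤ i j : K) * s (P.root j) := by
        rw [hk', map_sub, map_smul, hi1, smul_eq_mul]
      have hik : P.pairingIn ℤ k i = 2 - P.pairingIn ℤ i j * P.pairingIn ℤ j i := by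
        have h1 : (P.pairingIn ℤ k i : K) = 2 - (P.pairingIn ℤ i j : K) * (P.pairingIn ℤ j i : K) := by
          rw [← pair_cast, hk', map_sub, map_smul, pair_cast, pair_cast, pair_self, smul_eq_mul]
          norm_num
        exact_mod_cast h1
      rcases same_len hij hij' ((hl i).trans (hl j).symm) with hp | hp | hp
      · -- pairing `-1`
        rw [hp, Int.cast_neg, Int.cast_one] at hsk hk'
        rcases h.sroot j with h1 | h1 | h1
        · refine Submodule.subset_span ⟨k, ⟨by rw [hsk, h1]; ring, ?_⟩, rfl⟩
          refine hcl' i k hi1 (by rw [hsk, h1]; ring) ?_ hi2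
          rw [hsym, hik, hsym j i, hp]; norm_num
        · exfalso
          rw [h1] at hsk
          rcases h.sroot k with h2 | h2 | h2 <;> rw [h2] at hsk <;> norm_num at hsk
        · rw [hk', neg_smul, one_smul, sub_neg_eq_add]
          refine Submodule.add_mem _ hiS ?_
          have h2 : P.root j = -P.root (P.reflectionPerm j j) := by rw [root_neg, neg_neg]
          rw [h2]
          have h3 : s (P.root (P.reflectionPerm j j)) = 1 := by rw [root_neg, map_neg, h1, neg_neg]
          refine Submodule.neg_mem _ (Submodule.subset_span ⟨_, ⟨h3, ?_⟩, rfl⟩)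
          refine hcl' i _ hi1 h3 ?_ hi2
          rw [hsym]
          have h4 : (P.pairingIn ℤ (P.reflectionPerm j j) i : K) = 1 := by
            rw [← pair_cast, root_neg, map_neg, pair_cast, hsym j i, hp]
            norm_num
          exact_mod_cast h4
      · rw [hk', hp, Int.cast_zero, zero_smul, sub_zero]
        exact hiS
      · rw [hp, Int.cast_one] at hsk hk'
        rcases h.sroot j with h1 | h1 | h1
        · refine Submodule.subset_span ⟨k, ⟨by rw [hsk, h1]; ring, ?_⟩, rfl⟩
          refine hcl' i k hi1 (by rw [hsk, h1]; ring) ?_ hi2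
          rw [hsym, hik, hsym j i, hp]; norm_num
        · rw [hk', one_smul]
          refine Submodule.sub_mem _ hiS (Submodule.subset_span ⟨j, ⟨h1, ?_⟩, rfl⟩)
          exact hcl' i j hi1 h1 hp hi2
        · exfalso
          rw [h1] at hsk
          rcases h.sroot k with h2 | h2 | h2 <;> rw [h2] at hsk <;> norm_num at hsk
    intro a ha hsa
    obtain ⟨m, -, rfl⟩ := Finset.mem_image.mp ha
    by_contra hmD
    have h0 : ∀ i ∈ S, bf P l (P.root m) (P.root i) = 0 := by
      rintro i ⟨hi1, hi2⟩
      rw [bf_one (hl i), pair_cast]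
      have hmi : m ≠ i := by
        rintro rfl
        exact hmD hi2
      have hmi' : P.root m ≠ -P.root i := by
        intro h1
        rw [h1, map_neg, hi1] at hsa
        norm_num at hsa
      rcases same_len hmi hmi' ((hl m).trans (hl i).symm) with hp | hp | hp
      · exfalso
        have hk : P.root (P.reflectionPerm i m) = P.root m + P.root i := by
          rw [P.root_reflectionPerm, RootPairing.reflection_apply, pair_cast, hp, Int.cast_neg,
            Int.cast_one, neg_smul, one_smul, sub_neg_eq_add]
        have h1 := h.sroot (P.reflectionPerm i m)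
        rw [hk, map_add, hsa, hi1] at h1
        rcases h1 with h1 | h1 | h1 <;> norm_num at h1
      · rw [hp, Int.cast_zero]
      · exfalso
        exact hmD (hcl' i m hi1 hsa (by rw [hsym]; exact hp) hi2)
    have h1 := span_form hS l h0 (P.root m)
    rw [bf_one (hl m), pair_cast, pair_self] at h1
    norm_num at h1

end rp2

end UN
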