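import Mathlib
import Pool.Agent.Helper21.MT.Rank

/-!
The special linear group is generated by transvections.
-/

open Module MTP

namespace UN

section mat

open Matrix

/-- Whitehead's identity in an algebra. -/
theorem whitehead_alg {K R : Type*} [Field K] [Ring R] [Algebra K R] {E F : R} (hEE : E * E = 0)
    (hFF : F * F = 0) (hEFE : E * F * E = E) (hFEF : F * E * F = F) {a : K} (ha : a ≠ 0) :
    (1 + a • E) * (1 + (-a⁻¹) • F) * (1 + (a - 1) • E) * (1 + (1 : K) • F) *
      (1 + (-1 : K) • E) = 1 + (a - 1) • (E * F) + (a⁻¹ - 1) • (F * E) := by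
  have e1 : ∀ X : R, X * E * E = 0 := fun X => by rw [mul_assoc, hEE, mul_zero]
  have e2 : ∀ X : R, X * F * F = 0 := fun X => by rw [mul_assoc, hFF, mul_zero]
  simp only [mul_add, add_mul, mul_one, one_mul, smul_mul_assoc, mul_smul_comm, hEE, hFF,
    ← mul_assoc, hEFE, hFEF, e1, e2, smul_zero, zero_mul, smul_add, smul_smul]
  match_scalars <;> field_simp <;> ring

variable {K : Type*} [Field K] {n : Type*} [Fintype n] [DecidableEq n]

/-- Whitehead's identity. -/
theorem whitehead {i j : n} (hij : i ≠ j) {a : K} (ha : a ≠ 0) :
    transvection i j a * transvection j i (-a⁻¹) * transvection i j (a - 1) *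
      transvection j i 1 * transvection i j (-1) =
      1 + (a - 1) • Matrix.single i i (1 : K) + (a⁻¹ - 1) • Matrix.single j j (1 : K) := by
  have hEF : Matrix.single i j (1 : K) * Matrix.single j i (1 : K) = Matrix.single i i 1 := by
    simp
  have hFE : Matrix.single j i (1 : K) * Matrix.single i j (1 : K) = Matrix.single j j 1 := by
    simp
  have hEE : Matrix.single i j (1 : K) * Matrix.single i j (1 : K) = 0 := by
    simp [hij.symm]
  have hFF : Matrix.single j i (1 : K) * Matrix.single j i (1 : K) = 0 := by
    simp [hij]
  have t : ∀ (k l : n) (c : K), transvection k l c = 1 + c • Matrix.single k l (1 : K) :=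
    fun k l c => by rw [transvection, smul_single, smul_eq_mul, mul_one]
  have h := whitehead_alg hEE hFF (by rw [hEF]; simp) (by rw [hFE]; simp) ha
  rw [hEF, hFE] at h
  rw [t, t, t, t, t]
  exact h

/-- Diagonal matrices of determinant one are products of transvections. -/
theorem diagonal_mem (S : Submonoid (Matrix n n K))
    (hS : ∀ (i j : n) (c : K), i ≠ j → transvection i j c ∈ S) (i0 : n) (s : Finset n) :
    i0 ∉ s → ∀ D : n → K, (∀ i, i ≠ i0 → i ∉ s → D i = 1) → ∏ i, D i = 1 →
      diagonal D ∈ S := by
  induction s using Finset.induction_on with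
  | empty =>
    intro _ D hD hp
    rw [Fintype.prod_eq_single i0 (fun i hi => hD i hi (Finset.notMem_empty i))] at hp
    have : D = 1 := by
      funext i
      by_cases hi : i = i0
      · rw [hi]; exact hp
      · exact hD i hi (Finset.notMem_empty i)
    rw [this]
    have h1 : diagonal (1 : n → K) = 1 := diagonal_one
    rw [h1]
    exact S.one_mem
  | insert j s hj ih =>
    intro hi0 D hD hp
    rw [Finset.mem_insert, not_or] at hi0
    have hDj : ∀ i, D i ≠ 0 := by
      intro i h0
      rw [Finset.prod_eq_zero (Finset.mem_univ i) h0] at hp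
      exact zero_ne_one hp
    have hne : j ≠ i0 := fun h => hi0.1 h.symm
    set D' : n → K := fun i => if i = j then 1 else if i = i0 then D j * D i0 else D i with hD'
    have h1 : diagonal D = (1 + (D j - 1) • Matrix.single j j (1 : K) +
        ((D j)⁻¹ - 1) • Matrix.single i0 i0 (1 : K)) * diagonal D' := by
      have h2 : (1 + (D j - 1) • Matrix.single j j (1 : K) +
          ((D j)⁻¹ - 1) • Matrix.single i0 i0 (1 : K)) =
          diagonal (fun i => if i = j then D j else if i = i0 then (D j)⁻¹ else 1) := by
        ext k l
        by_cases hkl : k = l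
        · subst hkl
          by_cases h3 : k = j
          · subst h3
            simp [hne.symm]
          · by_cases h4 : k = i0
            · subst h4
              simp [hne, hne.symm]
            · simp [h3, h4, Ne.symm h3, Ne.symm h4]
        · rw [diagonal_apply_ne _ hkl]
          simp only [Matrix.add_apply, Matrix.smul_apply, Matrix.one_apply_ne hkl,
            Matrix.single_apply, smul_eq_mul]
          rw [if_neg, if_neg]
          · simp
          · rintro ⟨rfl, rfl⟩; exact hkl rfl
          · rintro ⟨rfl, rfl⟩; exact hkl rfl
      rw [h2, diagonal_mul_diagonal]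
      congr 1
      funext i
      by_cases h3 : i = j
      · subst h3; simp [hD']
      · by_cases h4 : i = i0
        · subst h4
          simp only [hD', if_neg h3, if_true]
          rw [← mul_assoc, inv_mul_cancel₀ (hDj j), one_mul]
        · simp [hD', h3, h4]
    rw [h1]
    refine S.mul_mem ?_ (ih hi0.2 D' ?_ ?_)
    · rw [← whitehead hne (hDj j)]
      exact S.mul_mem (S.mul_mem (S.mul_mem (S.mul_mem (hS _ _ _ hne) (hS _ _ _ hne.symm))
        (hS _ _ _ hne)) (hS _ _ _ hne.symm)) (hS _ _ _ hne)
    · intro i hi his
      by_cases h3 : i = j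
      · simp [hD', h3]
      · simp only [hD', if_neg h3, if_neg hi]
        exact hD i hi (by rw [Finset.mem_insert, not_or]; exact ⟨h3, his⟩)
    · have h5 := congrArg det h1
      rw [det_mul, det_diagonal, det_diagonal, hp] at h5
      have h6 : (1 + (D j - 1) • Matrix.single j j (1 : K) +
        ((D j)⁻¹ - 1) • Matrix.single i0 i0 (1 : K)).det = 1 := by
        rw [← whitehead hne (hDj j)]
        simp only [det_mul, det_transvection_of_ne _ _ hne, det_transvection_of_ne _ _ hne.symm,
          mul_one]
      rw [h6, one_mul] at h5
      exact h5.symm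

end mat

/-- SG: the special linear group is generated by transvections. -/
theorem sl_mem_of_transvections {K : Type*} [Field K] {V : Type*} [AddCommGroup V] [Module K V]
    [FiniteDimensional K V] (M : Submonoid (Module.End K V))
    (hM : ∀ N : Module.End K V, N * N = 0 → rk N ≤ 1 → 1 + N ∈ M) {g : Module.End K V}
    (hg : LinearMap.det g = 1) : g ∈ M := by
  classical
  let b := Module.finBasis K V
  let e := Matrix.toLinAlgEquiv b
  let S : Submonoid (Matrix (Fin (finrank K V)) (Fin (finrank K V)) K) :=
    M.comap (e : Matrix (Fin (finrank K V)) (Fin (finrank K V)) K →* Module.End K V)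
  have hSm : ∀ A, A ∈ S ↔ e A ∈ M := fun A => Iff.rfl
  have hS : ∀ (i j : Fin (finrank K V)) (c : K), i ≠ j → Matrix.transvection i j c ∈ S := by
    intro i j c hij
    rw [hSm, Matrix.transvection, map_add, map_one]
    apply hM
    · rw [← map_mul]
      have : Matrix.single i j c * Matrix.single i j c = 0 := by
        simp [hij.symm]
      rw [this, map_zero]
    · unfold rk
      have h1 : LinearMap.range (e (Matrix.single i j c)) ≤ Submodule.span K {b i} := by
        rintro _ ⟨v, rfl⟩
        rw [Submodule.mem_span_singleton]
        refine ⟨c * b.repr v j, ?_⟩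
        change _ = Matrix.toLinAlgEquiv b (Matrix.single i j c) v
        rw [Matrix.toLinAlgEquiv_apply]
        rw [Finset.sum_eq_single i]
        · congr 1
          simp [Matrix.single_mulVec]
        · intro k _ hk
          simp [Matrix.single_mulVec, hk]
        · intro h
          exact absurd (Finset.mem_univ i) h
      refine (Submodule.finrank_mono h1).trans ?_
      have h2 := finrank_span_le_card (R := K) ({b i} : Set V)
      simpa using h2
  have h2 : e.symm g ∈ S := by
    refine Matrix.diagonal_transvection_induction (fun A => A ∈ S) (e.symm g) ?_ ?_ ?_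
    · intro D hD
      have h3 : (e.symm g).det = 1 := by
        have : e.symm g = LinearMap.toMatrix b b g := rfl
        rw [this, LinearMap.det_toMatrix, hg]
      rw [h3, Matrix.det_diagonal] at hD
      by_cases hn : Nonempty (Fin (finrank K V))
      · obtain ⟨i0⟩ := hn
        exact diagonal_mem S hS i0 (Finset.univ.erase i0) (Finset.notMem_erase _ _) D
          (fun i hi hi' => absurd (Finset.mem_erase.2 ⟨hi, Finset.mem_univ _⟩) hi') hD
      · rw [not_nonempty_iff] at hn
        have : Matrix.diagonal D = 1 := by
          ext i
          exact hn.elim i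
        rw [this]
        exact S.one_mem
    · intro t
      exact hS _ _ _ t.hij
    · intro A B hA hB
      exact S.mul_mem hA hB
  rw [hSm, e.apply_symm_apply] at h2
  exact h2

end UN
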